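import Pool.Agent.Q142.EP4

set_option autoImplicit false

namespace Pool.Agent.Results.MP_492a05_co.Determined

open Module Submodule Pool.Agent.Q142.EP

/-- The elements of `Q` whose rank is not `k`. -/
def Off {Q : Type*} (ρ : Q → ℕ) (k : ℕ) : Type _ := {q : Q // ρ q ≠ k}

/-- `Off ρ k` has the order induced from `Q`. -/
instance {Q : Type*} [PartialOrder Q] (ρ : Q → ℕ) (k : ℕ) : PartialOrder (Off ρ k) :=
  inferInstanceAs (PartialOrder {q : Q // ρ q ≠ k})

section

variable {E : Type*} [NormedAddCommGroup E] [InnerProductSpace ℝ E]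

/-- The polytope spanned by the finite set `S`. -/
def Pol (S : Finset E) : Set E := convexHull ℝ (S : Set E)

/-- The dimension of the polytope `Pol S`. -/
noncomputable def pdim (S : Finset E) : ℕ := finrank ℝ (vectorSpan ℝ (Pol S))

/-- The faces of the polytope `Pol S`: its exposed subsets, among them `∅` and `Pol S` itself. -/
def Face (S : Finset E) : Type _ := {F : Set E // IsExposed ℝ (Pol S) F}

/-- Faces are ordered by inclusion. -/
instance (S : Finset E) : PartialOrder (Face S) :=
  inferInstanceAs (PartialOrder {F : Set E // IsExposed ℝ (Pol S) F})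

open Classical in
/-- The rank of a face is its dimension plus one; the empty face has rank `0`. -/
noncomputable def frank {S : Finset E} (F : Face S) : ℕ :=
  if F.1 = ∅ then 0 else finrank ℝ (vectorSpan ℝ F.1) + 1

instance (S : Finset E) : BoundedOrder (Face S) where
  top := ⟨Pol S, IsExposed.refl _⟩
  le_top := fun F => F.2.subset
  bot := ⟨∅, isExposed_empty⟩
  bot_le := fun F => Set.empty_subset F.1

variable [FiniteDimensional ℝ E]

/-- the homogenized points of `S` -/
def hom (S : Finset E) : {s // s ∈ S} → E × ℝ := fun s => (s.1, 1)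

lemma hom_ptd (S : Finset E) : Ptd (hom S) := by
  refine ⟨LinearMap.snd ℝ E ℝ, fun i => ?_⟩
  simp [hom]

instance (S : Finset E) : Fact (Ptd (hom S)) := ⟨hom_ptd S⟩

lemma face_eq (S : Finset E) {F : Set E} (hF : IsExposed ℝ (convexHull ℝ (S : Set E)) F) :
    F = convexHull ℝ ((S : Set E) ∩ F) := by
  have hPc : IsCompact (convexHull ℝ (S : Set E)) := S.finite_toSet.isCompact_convexHull ℝ
  have hFc : IsCompact F := hF.isCompact hPc
  have hFconv : Convex ℝ F := hF.convex (convex_convexHull ℝ _)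
  have hsub : F.extremePoints ℝ ⊆ S :=
    (hF.isExtreme.extremePoints_subset_extremePoints).trans extremePoints_convexHull_subset
  have h1 := closure_convexHull_extremePoints hFc hFconv
  have hfin : (F.extremePoints ℝ).Finite := S.finite_toSet.subset hsub
  have h2 : IsClosed (convexHull ℝ (F.extremePoints ℝ)) := (hfin.isCompact_convexHull ℝ).isClosed
  rw [h2.closure_eq] at h1
  apply Set.Subset.antisymm
  · conv_lhs => rw [← h1]
    exact convexHull_mono (Set.subset_inter hsub extremePoints_subset)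
  · exact convexHull_min Set.inter_subset_right hFconv

/-- the trace of a face on the points of `S` -/
def tr (S : Finset E) (F : Set E) : Set {s // s ∈ S} := {s | s.1 ∈ F}

lemma fc_tr (S : Finset E) {F : Set E} (hF : IsExposed ℝ (convexHull ℝ (S : Set E)) F) :
    Fc (hom S) Set.univ (tr S F) := by
  rcases F.eq_empty_or_nonempty with rfl | hne
  · have : tr S ∅ = ∅ := by
      ext s
      simp [tr]
    rw [this]
    exact fc_empty (hom_ptd S)
  · obtain ⟨l, hl⟩ := hF hne
    obtain ⟨x0, hx0⟩ := hne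
    have hx0' := hx0
    rw [hl] at hx0'
    refine ⟨l x0 • LinearMap.snd ℝ E ℝ - l.toLinearMap ∘ₗ LinearMap.fst ℝ E ℝ, ?_, ?_⟩
    · intro s _
      have h1 := hx0'.2 s.1 (subset_convexHull ℝ _ s.2)
      simp only [hom, LinearMap.sub_apply, LinearMap.smul_apply, LinearMap.snd_apply,
        LinearMap.comp_apply, LinearMap.fst_apply, smul_eq_mul, mul_one, sub_nonneg]
      exact h1
    · ext s
      have hsP : s.1 ∈ convexHull ℝ (S : Set E) := subset_convexHull ℝ _ s.2
      simp only [tr, hom, Set.mem_ofPred_eq, LinearMap.sub_apply, LinearMap.smul_apply,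
        LinearMap.snd_apply, LinearMap.comp_apply, LinearMap.fst_apply, smul_eq_mul, mul_one,
        Set.mem_univ, true_and, sub_eq_zero]
      constructor
      · intro hs
        have hs' := hs
        rw [hl] at hs'
        exact le_antisymm (hs'.2 x0 hx0'.1) (hx0'.2 s.1 hsP)
      · intro hs
        rw [hl]
        refine ⟨hsP, fun y hy => ?_⟩
        have h1 : l x0 = l s.1 := hs
        rw [← h1]
        exact hx0'.2 y hy

lemma exists_face (S : Finset E) {G : Set {s // s ∈ S}} (hG : Fc (hom S) Set.univ G) :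
    ∃ F : Set E, IsExposed ℝ (convexHull ℝ (S : Set E)) F ∧ tr S F = G := by
  obtain ⟨f, hf, hfG⟩ := hG
  set l : E →ₗ[ℝ] ℝ := -(f ∘ₗ LinearMap.inl ℝ E ℝ) with hl
  set c : ℝ := f (0, 1) with hc
  have hfl : ∀ x : E, f (x, 1) = c - l x := by
    intro x
    have h1 : ((x, 1) : E × ℝ) = (x, 0) + (0, 1) := by simp
    rw [h1, map_add, hl, hc]
    simp only [LinearMap.neg_apply, LinearMap.comp_apply, LinearMap.inl_apply]
    ring
  have hle : ∀ x ∈ convexHull ℝ (S : Set E), l x ≤ c := by
    intro x hx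
    have h1 : convexHull ℝ (S : Set E) ⊆ {x | l x ≤ c} := by
      apply convexHull_min
      · intro s hs
        have h2 := hf ⟨s, hs⟩ (Set.mem_univ _)
        have h3 : hom S ⟨s, hs⟩ = (s, 1) := rfl
        rw [h3, hfl] at h2
        show l s ≤ c
        linarith
      · exact convex_halfSpace_le l.isLinear c
    exact h1 hx
  refine ⟨{x | x ∈ convexHull ℝ (S : Set E) ∧ l x = c}, ?_, ?_⟩
  · rintro ⟨x0, hx0, hx0c⟩
    refine ⟨LinearMap.toContinuousLinearMap l, ?_⟩
    ext x
    simp only [Set.mem_ofPred_eq, LinearMap.coe_toContinuousLinearMap']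
    constructor
    · rintro ⟨h1, h2⟩
      exact ⟨h1, fun y hy => by rw [h2]; exact hle y hy⟩
    · rintro ⟨h1, h2⟩
      refine ⟨h1, le_antisymm (hle x h1) ?_⟩
      rw [← hx0c]
      exact h2 x0 hx0
  · rw [hfG]
    ext s
    have hsP : s.1 ∈ convexHull ℝ (S : Set E) := subset_convexHull ℝ _ s.2
    have h3 : hom S s = (s.1, 1) := rfl
    simp only [tr, Set.mem_ofPred_eq, Set.mem_univ, true_and, h3, hfl, sub_eq_zero]
    constructor
    · rintro ⟨_, h⟩
      exact h.symm
    · intro h
      exact ⟨hsP, h.symm⟩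

lemma tr_le (S : Finset E) {F G : Set E} (hF : IsExposed ℝ (convexHull ℝ (S : Set E)) F)
    (hG : IsExposed ℝ (convexHull ℝ (S : Set E)) G) : tr S F ⊆ tr S G ↔ F ⊆ G := by
  constructor
  · intro h
    rw [face_eq S hF, face_eq S hG]
    apply convexHull_mono
    rintro s ⟨hs, hsF⟩
    exact ⟨hs, h (show (⟨s, hs⟩ : {s // s ∈ S}) ∈ tr S F from hsF)⟩
  · intro h s hs
    exact h hs

/-- the lattice of faces of `conv S` and the lattice of faces of the configuration -/
noncomputable def theta (S : Finset E) : Face S ≃o CFace (hom S) :=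
  RelIso.ofSurjective
    (OrderEmbedding.ofMapLEIff (fun F : Face S =>
      (⟨tr S F.1, fc_tr S F.2⟩ : CFace (hom S))) (fun F G => tr_le S F.2 G.2))
    (fun G => by
      obtain ⟨F, hF, hFG⟩ := exists_face S G.2
      exact ⟨⟨F, hF⟩, Subtype.ext hFG⟩)

lemma theta_val (S : Finset E) (F : Face S) :
    (theta S F).1 = tr S F.1 := rfl

/-- dimension of the homogenization -/
lemma finrank_hom {T : Set E} (hT : T.Nonempty) :
    finrank ℝ (span ℝ ((fun t : E => ((t, 1) : E × ℝ)) '' T)) = finrank ℝ (vectorSpan ℝ T) + 1 := by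
  obtain ⟨t0, ht0⟩ := hT
  set U := span ℝ ((fun t : E => ((t, 1) : E × ℝ)) '' T) with hU
  have ht0U : ((t0, 1) : E × ℝ) ∈ U := subset_span ⟨t0, ht0, rfl⟩
  have h1 := ker_finrank (U := U) (LinearMap.snd ℝ E ℝ) ⟨(t0, 1), ht0U, by simp⟩
  rw [← h1]
  congr 1
  have h2 : ∀ x ∈ vectorSpan ℝ T, ((x, 0) : E × ℝ) ∈ U := by
    intro x hx
    rw [vectorSpan_eq_span_vsub_set_right ℝ ht0] at hx
    have h3 : span ℝ ((fun t => t -ᵥ t0) '' T) ≤ U.comap (LinearMap.inl ℝ E ℝ) := by
      rw [span_le]
      rintro _ ⟨t, ht, rfl⟩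
      show ((t -ᵥ t0, 0) : E × ℝ) ∈ U
      have h4 : ((t -ᵥ t0, 0) : E × ℝ) = (t, 1) - (t0, 1) := by simp
      rw [h4]
      exact sub_mem (subset_span ⟨t, ht, rfl⟩) ht0U
    exact h3 hx
  have h3 : ∀ u ∈ U, u.1 - u.2 • t0 ∈ vectorSpan ℝ T := by
    intro u hu
    have h4 : U ≤ (vectorSpan ℝ T).comap
        (LinearMap.fst ℝ E ℝ - (LinearMap.toSpanSingleton ℝ E t0) ∘ₗ LinearMap.snd ℝ E ℝ) := by
      rw [hU, span_le]
      rintro _ ⟨t, ht, rfl⟩
      show t - (1 : ℝ) • t0 ∈ vectorSpan ℝ T
      rw [one_smul]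
      exact vsub_mem_vectorSpan ℝ ht ht0
    exact h4 hu
  let e : LinearMap.ker ((LinearMap.snd ℝ E ℝ).domRestrict U) ≃ₗ[ℝ] vectorSpan ℝ T :=
    { toFun := fun x => ⟨x.1.1.1, by
        have h4 := h3 x.1.1 x.1.2
        have h5 : x.1.1.2 = 0 := x.2
        rw [h5, zero_smul, sub_zero] at h4
        exact h4⟩
      map_add' := fun x y => rfl
      map_smul' := fun c x => rfl
      invFun := fun x => ⟨⟨(x.1, 0), h2 x.1 x.2⟩, rfl⟩
      left_inv := fun x => by
        have h5 : x.1.1.2 = 0 := x.2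
        apply Subtype.ext
        apply Subtype.ext
        exact Prod.ext rfl h5.symm
      right_inv := fun x => rfl }
  exact e.finrank_eq

lemma crk_theta (S : Finset E) (F : Face S) :
    crk (hom S) (theta S F) = frank F := by
  unfold crk rk frank
  rw [theta_val]
  have himg : hom S '' tr S F.1 = (fun t : E => ((t, 1) : E × ℝ)) '' ((S : Set E) ∩ F.1) := by
    ext p
    constructor
    · rintro ⟨s, hs, rfl⟩
      exact ⟨s.1, ⟨s.2, hs⟩, rfl⟩
    · rintro ⟨s, ⟨hs, hsF⟩, rfl⟩
      exact ⟨⟨s, hs⟩, hsF, rfl⟩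
  rw [himg]
  by_cases hF : F.1 = ∅
  · rw [if_pos hF, hF, Set.inter_empty, Set.image_empty, span_empty, finrank_bot]
  · rw [if_neg hF]
    have hT : ((S : Set E) ∩ F.1).Nonempty := by
      by_contra hcon
      rw [Set.not_nonempty_iff_eq_empty] at hcon
      apply hF
      rw [face_eq S F.2, hcon, convexHull_empty]
    rw [finrank_hom hT]
    have h1 : vectorSpan ℝ F.1 = vectorSpan ℝ ((S : Set E) ∩ F.1) := by
      conv_lhs => rw [face_eq S F.2]
      rw [← direction_affineSpan, affineSpan_convexHull, direction_affineSpan]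
    rw [h1]

lemma good_face (S : Finset E) : Good (frank (S := S)) :=
  Good.transfer (theta S) (crk_theta S) good_cface

/-- **Main theorem.** Let `P = conv S` be a `d`-polytope, `1 ≤ r ≤ d - 2`, and let `Q` be an
Eulerian poset that agrees with the face lattice of `P` outside dimension `r` (rank `r + 1`).
Then `Q` is isomorphic to the face lattice of `P`, by an isomorphism extending the given
identification. -/
theorem result (S : Finset E) (r : ℕ) (hr1 : 1 ≤ r) (hr2 : r + 2 ≤ pdim S)
    {Q : Type*} [PartialOrder Q] [BoundedOrder Q] [Finite Q] (ρ : Q → ℕ)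
    (hρ : IsRank ρ) (hE : IsEulerian ρ)
    (φ : Off ρ (r + 1) ≃o Off (frank (S := S)) (r + 1))
    (hφ : ∀ q, frank (φ q).1 = ρ q.1) :
    ∃ Φ : Q ≃o Face S, ∀ q : Off ρ (r + 1), Φ q.1 = (φ q).1 := by
  have hfin : Finite (Face S) := Finite.of_equiv _ (theta S).symm.toEquiv
  have htop : frank (⊤ : Face S) = pdim S + 1 := by
    unfold frank
    have h1 : (⊤ : Face S).1 = Pol S := rfl
    rw [h1, if_neg]
    · rfl
    · intro h0
      unfold pdim at hr2
      rw [h0, vectorSpan_empty, finrank_bot] at hr2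
      omega
  exact main φ hρ hE (good_face S) hr1 (by rw [htop]; omega) hφ

end

end Pool.Agent.Results.MP_492a05_co.Determined
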